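import Mathlib

namespace Pool.Agent.Results.MP_903317_co.Vega

open SimpleGraph

/-- `G` lies in `F(k,2)`: `k`-regular, not bipartite, diameter exactly `2`, girth exactly `4`. -/
def InF {V : Type} (k : ℕ) (G : SimpleGraph V) : Prop :=
  (∀ v, (G.neighborSet v).ncard = k) ∧ ¬ G.Colorable 2 ∧ G.ediam = 2 ∧ G.egirth = 4

/-- The graph `G_k(p,q)` on `ZMod ((3p-1)q)`: `i` and `j` are adjacent when
`i - j ≡ 1 + 3n (mod 3p-1)` for some `n < p`. -/
def Gk (p q : ℕ) : SimpleGraph (ZMod ((3 * p - 1) * q)) :=
  SimpleGraph.fromRel fun i j => ∃ n, n < p ∧ (i - j).val ≡ 1 + 3 * n [MOD 3 * p - 1]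

def mask : List ℕ :=
  [14711024, 14712704, 14712704, 14712704, 251889409, 251889409, 251889409, 251887631, 807141502,
   807141502, 807141502, 4026761231, 4026761231, 4026761231, 4026761231, 1865968, 1865968,
   1865968, 3236136704, 3236136704, 3236136704, 253493263, 253493263, 253493263, 4041212144,
   4041212144, 4041212144, 4041212144, 251690752, 251690752, 253523968, 253523968]

def adj (a b : Fin 32) : Bool := (mask.getD a.val 0).testBit b.val

lemma adj_symm : ∀ a b, adj a b = adj b a := by decide +kernel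
lemma adj_irr : ∀ a, adj a a = false := by decide +kernel

def H : SimpleGraph (Fin 32) where
  Adj a b := adj a b = true
  symm := ⟨fun a b h => by rw [adj_symm]; exact h⟩
  loopless := ⟨fun a h => by rw [adj_irr] at h; exact absurd h (by decide)⟩

instance : DecidableRel H.Adj := fun a b => inferInstanceAs (Decidable (adj a b = true))

lemma deg : ∀ v : Fin 32, (Finset.univ.filter (fun w => adj v w = true)).card = 11 := by
  decide +kernel

lemma notri : ∀ a b c : Fin 32, adj a b = true → adj b c = true → adj c a = false := by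
  decide +kernel

lemma two : ∀ a b : Fin 32, a = b ∨ adj a b = true ∨ ∃ c, adj a c = true ∧ adj c b = true := by
  decide +kernel

lemma reg (v : Fin 32) : (H.neighborSet v).ncard = 11 := by
  rw [← deg v, ← Set.ncard_coe_finset]
  congr 1
  ext w
  simp [H]

lemma notbip : ¬ H.Colorable 2 := by
  rintro ⟨C⟩
  have h1 := C.valid (v := 0) (w := 4) (by decide)
  have h2 := C.valid (v := 4) (w := 8) (by decide)
  have h3 := C.valid (v := 8) (w := 1) (by decide)
  have h4 := C.valid (v := 1) (w := 7) (by decide)
  have h5 := C.valid (v := 7) (w := 0) (by decide)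
  revert h1 h2 h3 h4 h5
  generalize C 0 = a
  generalize C 4 = b
  generalize C 8 = c
  generalize C 1 = d
  generalize C 7 = e
  intro h1 h2 h3 h4 h5
  omega

lemma diam : H.ediam = 2 := by
  apply le_antisymm
  · apply ediam_le_of_edist_le
    intro u v
    rcases two u v with h | h | ⟨c, h1, h2⟩
    · rw [h, edist_self]; exact zero_le
    · rw [(edist_eq_one_iff_adj (G := H)).mpr h]; norm_num
    · exact edist_le (Walk.cons (show H.Adj u c from h1) (Walk.cons (show H.Adj c v from h2) Walk.nil))
  · have h : ¬ H.edist 0 1 ≤ 1 := by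
      rw [edist_le_one_iff_adj_or_eq]; decide
    have h2 : (2 : ℕ∞) ≤ H.edist 0 1 := Order.add_one_le_of_lt (not_le.mp h)
    exact h2.trans edist_le_ediam

lemma girth4 : H.egirth = 4 := by
  apply le_antisymm
  · have : (Walk.cons (show H.Adj 0 7 by decide) (Walk.cons (show H.Adj 7 1 by decide)
        (Walk.cons (show H.Adj 1 11 by decide) (Walk.cons (show H.Adj 11 0 by decide)
          Walk.nil)))).IsCycle := by
      rw [Walk.isCycle_def, Walk.isTrail_def]
      refine ⟨by decide, by simp, by decide⟩
    exact egirth_le_length this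
  · rw [le_egirth]
    intro a w hw
    have h3 := hw.three_le_length
    have h4 : w.length ≠ 3 := by
      intro h
      have e1 := w.adj_getVert_succ (i := 0) (by omega)
      have e2 := w.adj_getVert_succ (i := 1) (by omega)
      have e3 := w.adj_getVert_succ (i := 2) (by omega)
      have e4 : w.getVert 3 = w.getVert 0 := by
        rw [← h, Walk.getVert_length, Walk.getVert_zero]
      norm_num at e1 e2 e3 e4
      rw [e4] at e3
      have := notri _ _ _ e1 e2
      rw [show adj (w.getVert 2) a = true from e3] at this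
      exact absurd this (by decide)
    have : 4 ≤ w.length := by omega
    exact_mod_cast this

def rel (i j : Fin 32) : Prop := ∃ n, n < 11 ∧ (i - j).val % 32 = (1 + 3 * n) % 32

instance : DecidableRel rel := fun i j => by unfold rel; infer_instance

lemma notwin : ∀ a b : Fin 32, a ≠ b →
    ∃ c, ¬ ((a ≠ c ∧ (rel a c ∨ rel c a)) ↔ (b ≠ c ∧ (rel b c ∨ rel c b))) := by
  decide +kernel

lemma twin : ∀ c : Fin 32, adj 1 c = adj 2 c := by decide +kernel

lemma noniso : IsEmpty (H ≃g Gk 11 1) := by
  refine ⟨fun f => ?_⟩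
  have hne : f 1 ≠ f 2 := fun h => absurd (f.injective h) (by decide)
  obtain ⟨c, hc⟩ := notwin (f 1) (f 2) hne
  apply hc
  obtain ⟨d, rfl⟩ := f.surjective c
  change (Gk 11 1).Adj (f 1) (f d) ↔ (Gk 11 1).Adj (f 2) (f d)
  rw [f.map_rel_iff, f.map_rel_iff]
  change adj 1 d = true ↔ adj 2 d = true
  rw [twin]

theorem result : ∃ k p q : ℕ, 2 ≤ k ∧ p = k.minFac ∧ q = k / p ∧ 5 ≤ p ∧
    ∃ (n : ℕ) (G : SimpleGraph (Fin n)), n = 3 * k - k / p ∧ InF k G ∧
      IsEmpty (G ≃g Gk p q) :=
  ⟨11, 11, 1, by norm_num, by norm_num, by norm_num, by norm_num, 32, H, by norm_num,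
    ⟨reg, notbip, diam, girth4⟩, noniso⟩

end Pool.Agent.Results.MP_903317_co.Vega
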